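import Pool.Agent.L0h23.XF.CEL3
import Pool.Agent.L0h74.T3.KEY

/-!
# Project XF: the hypotheses on the systems of the numbers `g m` for `y² = x³ + n³`
-/

set_option autoImplicit false
set_option linter.unusedSectionVars false
set_option linter.unusedVariables false
set_option maxHeartbeats 1000000

open scoped Classical

namespace Pool.Agent.L0h23.XF

open Finset
open Pool.Agent.L0h86.XF
open Pool.Agent.Y703.CQ (nr)
open Pool.Agent.N973.ND (uu)
open Pool.Agent.L0h74.EV (n2 Cl)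
open Pool.Agent.L0h74.EV.NEG (card_iN)
open Pool.Agent.L0h74.AP (Cp)
open Pool.Agent.L0h2.P (od od_facts dvd_od)

variable {A : ℕ → ℕ → ZMod 2} {b : ℕ → ZMod 2}

/-- the primes of the odd part -/
theorem pr_od3 {g : ℕ} (hg : Squarefree g) (h3 : ¬ 3 ∣ g) :
    ∀ p ∈ (od g).primeFactors, PrF true p := by
  obtain ⟨o1, o2, o3, o4⟩ := od_facts hg
  intro p hp
  have h1 := Nat.prime_of_mem_primeFactors hp
  have h2 := Nat.dvd_of_mem_primeFactors hp
  have h4 : p ≠ 2 := by
    rintro rfl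
    omega
  refine ⟨h1, h4, ?_⟩
  rw [if_pos rfl]
  rintro rfl
  exact h3 ((dvd_od hg h1 h4).1 h2)

theorem kd_true (S : Finset ℕ) : kd true S = Pool.Agent.L0h74.T3.kd S := rfl

theorem kW_some (T : Finset ℕ) : kW ⟨dT 0 A b, T.image some⟩ = kd true T := by
  have h1 : ∀ c : ℕ, ((T.image some).filter fun x => tyO (dT 0 A b) x = c).card =
      (T.filter fun p => ty true p = c).card := by
    intro c
    rw [filter_image, card_image_of_injective _ (Option.some_injective _)]
    rfl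
  unfold kW kd
  simp only
  rw [h1, h1]

theorem kW_ins {t : ℕ} (ht : t < 2) (T : Finset ℕ) : kW ⟨dT t A b, insertNone T⟩ =
    kd true T - (if t = 1 then 1 else 0) := by
  have h1 : ∀ c : ℕ, ((insertNone T).filter fun x => tyO (dT t A b) x = c).card =
      (T.filter fun p => ty true p = c).card + if t = c then 1 else 0 := by
    intro c
    rw [card_iN T (fun x => tyO (dT t A b) x = c)]
    rfl
  unfold kW kd
  simp only [h1]
  rw [if_neg (by omega : ¬ t = 3)]
  push_cast
  ring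

theorem dg_some (T : Finset ℕ) (q : ℕ) :
    dg ⟨dT 0 A b, T.image some⟩ q = b q + ∑ r ∈ T, nr r q := by
  unfold dg
  simp only
  rw [sum_image fun a _ b _ h => Option.some_injective _ h]
  rfl

theorem dg_ins {t : ℕ} (T : Finset ℕ) {q : ℕ} (hq : uu q = 0) :
    dg ⟨dT t A b, insertNone T⟩ q = b q + (∑ r ∈ T, nr r q + n2 q) := by
  unfold dg
  simp only
  rw [Finset.sum_insertNone]
  have e1 : nO (dT t A b) none (some q) = n2 q := by
    show n2 q + (if t % 2 = 1 then uu q else 0) = n2 q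
    rw [hq]
    split_ifs <;> rw [add_zero]
  have e2 : (dT t A b).b q = b q := rfl
  rw [e1, e2]
  congr 1
  rw [add_comm]
  rfl

theorem sys_f (g a : ℕ) : (sysT A b g a).d.f = true := by
  unfold sysT
  split_ifs <;> rfl

theorem sys_A (g a : ℕ) : (sysT A b g a).d.A = A := by
  unfold sysT
  split_ifs <;> rfl

theorem sys_t4 (g a : ℕ) : (sysT A b g a).d.t < 4 := by
  unfold sysT
  split_ifs
  · show 0 < 4
    norm_num
  · show 0 < 4
    norm_num
  · show 1 < 4
    norm_num

theorem sys_W (g a : ℕ) : ∀ v ∈ (sysT A b g a).W,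
    v = none ∨ ∃ p ∈ (od g).primeFactors, v = some p := by
  intro v hv
  unfold od
  unfold sysT at hv
  by_cases h1 : g % 2 = 1
  · rw [if_pos h1] at hv ⊢
    have hv' : v ∈ g.primeFactors.image some := hv
    rw [mem_image] at hv'
    obtain ⟨p, hp, rfl⟩ := hv'
    exact Or.inr ⟨p, hp, rfl⟩
  · rw [if_neg h1] at hv ⊢
    have hv' : v ∈ insertNone (g / 2).primeFactors := hv
    rcases v with _ | v
    · exact Or.inl rfl
    · rw [Finset.some_mem_insertNone] at hv'
      exact Or.inr ⟨v, hv', rfl⟩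

/-- the diagonal of the system -/
theorem sys_dg (g a : ℕ) {q : ℕ} (hq : uu q = 0) : dg (sysT A b g a) q =
    b q + (∑ r ∈ (od g).primeFactors, nr r q + if g % 2 = 1 then 0 else n2 q) := by
  unfold sysT od
  by_cases h1 : g % 2 = 1
  · rw [if_pos h1, if_pos h1, if_pos h1, add_zero, dg_some]
  · rw [if_neg h1, if_neg h1, if_neg h1, dg_ins _ hq]

/-- the parity of the system -/
theorem sys_par {u g a : ℕ} (h12 : 12 ∣ u) (hc : Cp u a) (hg : Squarefree g) (h3 : ¬ 3 ∣ g)
    (hpar : g % 2 = 0 ∨ (g * a) % 4 = 1) {S : Finset ℕ} (hS : Cl u a S) :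
    (kW (sysT A b g a) + kd true S) % 2 = 0 := by
  have h4 : 4 ∣ u := (by norm_num : 4 ∣ 12).trans h12
  have h3u : 3 ∣ u := (by norm_num : 3 ∣ 12).trans h12
  obtain ⟨o1, o2, o3, o4⟩ := od_facts hg
  have hT := Pool.Agent.L0h74.T3.KEY.kd_par (pr_od3 hg h3)
  rw [Nat.prod_primeFactors_of_squarefree o1] at hT
  have hpr : ∀ p ∈ S, Pool.Agent.L0h74.T3.Pr p := by
    intro p hp
    obtain ⟨p1, p2, p3⟩ := hS.1 p hp
    refine ⟨p1, p2, ?_⟩
    rintro rfl
    exact hc.nd Nat.prime_three hS.2 (Finset.dvd_prod_of_mem (fun q : ℕ => q) hp) h3u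
  have hS1 := Pool.Agent.L0h74.T3.KEY.kd_par hpr
  rw [← kd_true] at hT hS1
  have hS4 : (∏ p ∈ S, p) % 4 = a % 4 := by
    rw [← hS.2, Nat.mod_mod_of_dvd _ h4]
  rw [hS4] at hS1
  have ha : a % 2 = 1 := hc.modd (Nat.mod_eq_of_lt hc.lt)
  have hm : (od g * a) % 4 = ((od g) % 4 * (a % 4)) % 4 := Nat.mul_mod _ _ _
  have c1 : (od g) % 4 = 1 ∨ (od g) % 4 = 3 := by omega
  have c2 : a % 4 = 1 ∨ a % 4 = 3 := by omega
  have hod : od g = if g % 2 = 1 then g else g / 2 := rfl
  unfold sysT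
  by_cases h1 : g % 2 = 1
  · rw [if_pos h1]
    rw [if_pos h1] at hod
    rw [← hod]
    have h2 : od g * a % 4 = 1 := by
      rcases hpar with h' | h'
      · omega
      · rw [hod]; exact h'
    rw [kW_some]
    rcases c1 with c1 | c1 <;> rcases c2 with c2 | c2 <;> rw [c1] at hT hm <;>
      rw [c2] at hS1 hm <;> simp at hT hS1 hm <;> omega
  · rw [if_neg h1]
    rw [if_neg h1] at hod
    rw [← hod]
    rw [kW_ins (by split_ifs <;> omega)]
    by_cases h2 : od g * a % 4 = 1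
    · rw [if_pos h2, if_neg (by norm_num)]
      rcases c1 with c1 | c1 <;> rcases c2 with c2 | c2 <;> rw [c1] at hT hm <;>
        rw [c2] at hS1 hm <;> simp at hT hS1 hm <;> omega
    · rw [if_neg h2, if_pos rfl]
      rcases c1 with c1 | c1 <;> rcases c2 with c2 | c2 <;> rw [c1] at hT hm <;>
        rw [c2] at hS1 hm <;> simp at hT hS1 hm <;> omega

theorem rec_true (h : Pool.Agent.L0h74.T3.RecA A) : RecA true A := h

theorem uu_of_ty {q : ℕ} (h : ty true q = 2) : uu q = 0 := by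
  have h1 : ty true q = 2 * mF true q + if q % 4 = 3 then 1 else 0 := rfl
  rw [h1] at h
  unfold Pool.Agent.N973.ND.uu
  split_ifs at h ⊢ with h2
  · omega
  · rfl

/-- **The systems of the numbers `g m` for `y² = x³ + n³` satisfy the hypotheses.** -/
theorem hy3 (hCLS : S_CLS3) (hA : Pool.Agent.L0h74.T3.RecA A) {u a : ℕ} (hc : Cp u a)
    (h168 : 168 ∣ u) {t : ℕ} (g : Fin t → ℕ) (hsq : ∀ l, Squarefree (g l)) (h3 : ∀ l, ¬ 3 ∣ g l)
    (hu : ∀ l p, p.Prime → p ∣ g l → p ∣ u)
    (hpar : ∀ l, g l % 2 = 0 ∨ (g l * a) % 4 = 1) (hinj : Function.Injective g) :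
    ∃ (n : ℕ) (cl : Fin n → ℕ) (x : Fin t → Fin n → ZMod 2),
      HyF true (fun l => sysT A b (g l) a) u a cl x := by
  have h12 : 12 ∣ u := (by norm_num : 12 ∣ 168).trans h168
  set Ps := u.primeFactors.filter (fun p => p ≠ 3) with hPs
  have hP : ∀ r : Ps, (r : ℕ).Prime ∧ (r : ℕ) ∣ u ∧ (r : ℕ) ≠ 3 := by
    intro r
    have h1 := mem_filter.1 r.2
    exact ⟨Nat.prime_of_mem_primeFactors h1.1, Nat.dvd_of_mem_primeFactors h1.1, h1.2⟩
  have hex : ∀ r : Ps, ∃ c : ℕ, c < 7 * u ∧ c.Coprime (7 * u) ∧ ∀ q, q.Prime →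
      q % (7 * u) = c → ty true q = 2 ∧
      (∀ r', PrF true r' → r' ∣ u → nr r' q = if r' = (r : ℕ) then 1 else 0) ∧
        n2 q = if (r : ℕ) = 2 then 1 else 0 := by
    intro r
    obtain ⟨p1, p2, p3⟩ := hP r
    refine hCLS u h168 hc.pos r ?_
    by_cases hr : (r : ℕ) = 2
    · exact Or.inl hr
    · exact Or.inr ⟨⟨p1, hr, by rw [if_pos rfl]; exact p3⟩, p2⟩
  choose cc hcc using hex
  set e := Ps.equivFin.symm with he
  refine ⟨Ps.card, fun i => cc (e i), fun l i => if ((e i : Ps) : ℕ) ∣ g l then 1 else 0, ?_⟩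
  refine ⟨fun l => sys_f _ _, fun l => sys_t4 _ _, fun l => ?_, ?_, ?_, ?_, ?_, ?_, ?_⟩
  · show RecA (sysT A b (g l) a).d.f (sysT A b (g l) a).d.A
    rw [sys_f, sys_A]
    exact rec_true hA
  · intro l v hv
    show PrO (sysT A b (g l) a).d.f v
    rw [sys_f]
    rcases sys_W _ _ v hv with rfl | ⟨p, hp, rfl⟩
    · exact trivial
    · exact pr_od3 (hsq l) (h3 l) p hp
  · intro l p hp
    rcases sys_W _ _ _ hp with h1 | ⟨p', hp', h1⟩
    · exact absurd h1 (by simp)
    · rw [Option.some_injective _ h1]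
      have h2 := pr_od3 (hsq l) (h3 l) p' hp'
      exact hu l p' h2.1 ((dvd_od (hsq l) h2.1 h2.2.1).1 (Nat.dvd_of_mem_primeFactors hp'))
  · intro l S hS
    show (kW (sysT A b (g l) a) + kd (sysT A b (g l) a).d.f S) % 2 = 0
    rw [sys_f]
    exact sys_par h12 hc (hsq l) (h3 l) (hpar l) hS
  · intro i q hq hqc
    obtain ⟨h1, h2, h3'⟩ := hcc (e i)
    obtain ⟨k1, k2, k3⟩ := h3' q hq hqc
    have hq0 : uu q = 0 := uu_of_ty k1
    refine ⟨k1, ?_⟩
    have key : ∀ l, dg (sysT A b (g l) a) q + (if ((e i : Ps) : ℕ) ∣ g l then 1 else 0) =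
        b q := by
      intro l
      rw [sys_dg _ _ hq0]
      obtain ⟨o1, o2, o3, o4⟩ := od_facts (hsq l)
      obtain ⟨p1, p2, p3⟩ := hP (e i)
      have e1 : ∑ r ∈ (od (g l)).primeFactors, nr r q =
          ∑ r ∈ (od (g l)).primeFactors, if r = ((e i : Ps) : ℕ) then 1 else 0 := by
        refine sum_congr rfl fun r hr => ?_
        have h2' := pr_od3 (hsq l) (h3 l) r hr
        exact k2 r h2' (hu l r h2'.1 ((dvd_od (hsq l) h2'.1 h2'.2.1).1
          (Nat.dvd_of_mem_primeFactors hr)))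
      rw [e1, sum_ite_eq' _ ((e i : Ps) : ℕ) fun _ => (1 : ZMod 2), k3]
      have e2 : (if ((e i : Ps) : ℕ) ∈ (od (g l)).primeFactors then (1 : ZMod 2) else 0) +
          (if g l % 2 = 1 then 0 else if ((e i : Ps) : ℕ) = 2 then 1 else 0) =
          if ((e i : Ps) : ℕ) ∣ g l then 1 else 0 := by
        by_cases hr : ((e i : Ps) : ℕ) = 2
        · rw [hr, if_pos rfl, if_neg (fun h' => by
            have := Nat.dvd_of_mem_primeFactors h'
            omega), zero_add]
          by_cases hg2 : g l % 2 = 1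
          · rw [if_pos hg2, if_neg (by omega)]
          · rw [if_neg hg2, if_pos (by omega)]
        · rw [if_neg hr]
          have e3 : ((e i : Ps) : ℕ) ∈ (od (g l)).primeFactors ↔ ((e i : Ps) : ℕ) ∣ g l := by
            rw [Nat.mem_primeFactors, dvd_od (hsq l) p1 hr]
            exact ⟨fun h' => h'.2.1, fun h' => ⟨p1, h', o1.ne_zero⟩⟩
          simp only [e3]
          split_ifs <;> simp
      rw [e2]
      have : ∀ x y : ZMod 2, x + y + y = x := by decide
      exact this _ _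
    intro l l'
    exact (key l).trans (key l').symm
  · intro i
    obtain ⟨h1, h2, h3'⟩ := hcc (e i)
    exact ⟨h1, h2⟩
  · intro l l' hne
    by_contra hcon
    push Not at hcon
    apply hne
    apply hinj
    have hdv : ∀ l l', (∀ i, (if ((e i : Ps) : ℕ) ∣ g l then (1 : ZMod 2) else 0) =
        if ((e i : Ps) : ℕ) ∣ g l' then 1 else 0) → (g l).primeFactors ⊆ (g l').primeFactors := by
      intro l l' hll p hp
      have hpp := Nat.prime_of_mem_primeFactors hp
      have hpd := Nat.dvd_of_mem_primeFactors hp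
      have hmem : p ∈ Ps := by
        rw [hPs, mem_filter, Nat.mem_primeFactors]
        exact ⟨⟨hpp, hu l p hpp hpd, hc.pos.ne'⟩, fun h' => h3 l (by rw [← h']; exact hpd)⟩
      have h1 := hll (e.symm ⟨p, hmem⟩)
      rw [e.apply_symm_apply] at h1
      simp only at h1
      rw [if_pos hpd] at h1
      rw [Nat.mem_primeFactors]
      refine ⟨hpp, ?_, (hsq l').ne_zero⟩
      by_contra hnd
      rw [if_neg hnd] at h1
      exact one_ne_zero h1
    rw [← Nat.prod_primeFactors_of_squarefree (hsq l),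
      ← Nat.prod_primeFactors_of_squarefree (hsq l')]
    rw [subset_antisymm (hdv l l' hcon) (hdv l' l fun i => (hcon i).symm)]

end Pool.Agent.L0h23.XF
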