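import Pool.Agent.L0h86.XF.StmL
import Pool.Agent.L0h23.XF.CEL3b

/-!
# Project XF, module CEL3
-/

set_option autoImplicit false

open scoped Classical

namespace Pool.Agent.L0h23.XF

open Finset
open Pool.Agent.L0h86.XF
open Pool.Agent.L0h2.P (od_facts dvd_od)

/-- **CEL3** -/
theorem t_CEL3 : S_CEL true := by
  obtain ⟨A, b, hC⟩ := Pool.Agent.L0h74.E3.exists_crD
  refine ⟨b, fun u a g hc h168 hg h3 hu hpar => ⟨sysT A b g a, ?_, fun m hm hma => ?_⟩⟩
  · rw [if_pos rfl] at h3
    have h12 : 12 ∣ u := (by norm_num : 12 ∣ 168).trans h168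
    refine ⟨sys_f _ _, sys_t4 _ _, ?_, ?_, ?_, ?_, ?_⟩
    · rw [sys_A]
      exact rec_true hC.recA
    · intro v hv
      rcases sys_W _ _ v hv with rfl | ⟨p, hp, rfl⟩
      · exact trivial
      · exact pr_od3 hg h3 p hp
    · intro p hp
      rcases sys_W _ _ _ hp with h1 | ⟨p', hp', h1⟩
      · exact absurd h1 (by simp)
      · rw [Option.some_injective _ h1]
        have h2 := pr_od3 hg h3 p' hp'
        exact hu p' h2.1 ((dvd_od hg h2.1 h2.2.1).1 (Nat.dvd_of_mem_primeFactors hp'))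
    · intro S hS
      exact sys_par h12 hc hg h3 (hpar rfl) hS
    · intro q hq
      exact sys_dg g a (uu_of_ty hq)
  · rw [if_pos rfl] at h3
    have h12 : 12 ∣ u := (by norm_num : 12 ∣ 168).trans h168
    have h1 : Good true (g * m) ↔ Pool.Agent.L0h74.E3.Cr (g * m) := by
      unfold Good
      rw [if_pos rfl]
    rw [h1]
    exact cr_sys hC hc h12 hg h3 hu (hpar rfl) hm hma

end Pool.Agent.L0h23.XF
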