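import Pool.Agent.L0h23.XF.HyF
import Pool.Agent.L0h2.P.CEL2
import Pool.Agent.L0h74.E3.LB

/-!
# Project XF: the systems of the numbers `g m` for `y² = x³ + n³`
-/

set_option autoImplicit false
set_option linter.unusedSectionVars false
set_option linter.unusedVariables false

open scoped Classical

namespace Pool.Agent.L0h23.XF

open Finset
open Pool.Agent.L0h86.XF
open Pool.Agent.Y703.CQ (nr)
open Pool.Agent.N973.ND (uu Gv Gv_tr)
open Pool.Agent.L0h74.EV (n2 Cl)
open Pool.Agent.L0h74.AP (Cp)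
open Pool.Agent.L0h2.P (od od_facts dvd_od pf_mul)

/-! ### Families of primes -/

section transport
variable {V V' : Type} [Fintype V] [Fintype V']

theorem GRO_tr (e : V ≃ V') (d : Dt) {r : V → Option ℕ} {r' : V' → Option ℕ}
    (hr : ∀ i, r' (e i) = r i) (h : GRO d r) : GRO d r' := by
  refine Gv_tr e ?_ ?_ ?_ ?_ ?_ h
  · intro i
    simp only [mem_filter, mem_univ, true_and, hr]
  · intro i
    simp only [mem_filter, mem_univ, true_and, hr]
  · intro i j
    rw [hr, hr]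
  · intro i j
    rw [hr, hr]
    by_cases h1 : i = j
    · rw [if_pos h1, if_pos (congrArg e h1)]
    · rw [if_neg h1, if_neg fun h2 => h1 (e.injective h2)]
  · intro i
    rw [hr]

theorem GRO_iff (e : V ≃ V') (d : Dt) {r : V → Option ℕ} {r' : V' → Option ℕ}
    (hr : ∀ i, r' (e i) = r i) : GRO d r ↔ GRO d r' :=
  ⟨GRO_tr e d hr, GRO_tr e.symm d fun i => by rw [← hr, e.apply_symm_apply]⟩

/-- the good sets from a parametrization -/
theorem GdO_iff (d : Dt) {r : V → Option ℕ} (hr : Function.Injective r)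
    {S : Finset (Option ℕ)} (hS : univ.image r = S) : GdO d S ↔ GRO d r := by
  unfold GdO
  have h1 : ∀ i, r i ∈ S := fun i => by
    rw [← hS]
    exact mem_image_of_mem _ (mem_univ _)
  have h2 : Function.Bijective fun i : V => (⟨r i, h1 i⟩ : S) := by
    constructor
    · intro i j h
      exact hr (congrArg Subtype.val h)
    · rintro ⟨x, hx⟩
      rw [← hS, mem_image] at hx
      obtain ⟨i, -, rfl⟩ := hx
      exact ⟨i, rfl⟩
  exact (GRO_iff (Equiv.ofBijective _ h2) d fun i => rfl).symm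

end transport

/-! ### The systems of the field `ℚ(√-3)` -/

/-- the data -/
def dT (t : ℕ) (A : ℕ → ℕ → ZMod 2) (b : ℕ → ZMod 2) : Dt := ⟨true, t, A, fun _ => 0, b, 0⟩

variable {A : ℕ → ℕ → ZMod 2} {b : ℕ → ZMod 2}

theorem mO_T {t : ℕ} (ht : t < 2) (x : Option ℕ) : mO (dT t A b) x = Pool.Agent.L0h74.E3.m3O x := by
  rcases x with _ | p
  · show t / 2 = 0
    omega
  · rfl

theorem tyO_T (t : ℕ) (x : Option ℕ) : tyO (dT t A b) x = Pool.Agent.L0h74.E3.tyO t x := by
  rcases x with _ | p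
  · rfl
  · rfl

theorem nO_T {t : ℕ} (ht : t < 2) (x y : Option ℕ) :
    nO (dT t A b) x y = Pool.Agent.L0h74.E3.nO t x y := by
  rcases x with _ | p <;> rcases y with _ | q
  · rfl
  · show n2 q + (if t % 2 = 1 then uu q else 0) = Pool.Agent.L0h74.E3.n2 q +
      (if t = 1 then uu q else 0)
    have e : (t % 2 = 1) ↔ t = 1 := by omega
    simp only [e]
    rfl
  · rfl
  · rfl

theorem eO_T (t : ℕ) (x y : Option ℕ) :
    eO (dT t A b) x y = Pool.Agent.L0h74.E3.eO ⟨t, A, b⟩ x y := by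
  rcases x with _ | p <;> rcases y with _ | q
  · rfl
  · rfl
  · rfl
  · rfl

theorem bO_T (t : ℕ) (x : Option ℕ) : bO (dT t A b) x = Pool.Agent.L0h74.E3.bO ⟨t, A, b⟩ x := by
  rcases x with _ | p
  · rfl
  · rfl

theorem GRO_T {t : ℕ} (ht : t < 2) {V : Type} [Fintype V] (r : V → Option ℕ) :
    GRO (dT t A b) r ↔ Pool.Agent.L0h74.E3.GRO ⟨t, A, b⟩ r := by
  unfold GRO Pool.Agent.L0h74.E3.GRO
  simp only [mO_T ht, tyO_T, nO_T ht, eO_T, bO_T]

theorem GdO_T {t : ℕ} (ht : t < 2) (S : Finset (Option ℕ)) :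
    GdO (dT t A b) S ↔ Pool.Agent.L0h74.E3.GdO ⟨t, A, b⟩ S := GRO_T ht _

/-- the good sets of odd primes -/
theorem GdO_some (S : Finset ℕ) :
    GdO (dT 0 A b) (S.image some) ↔ Pool.Agent.L0h74.T3.Gd A b S := by
  have h1 : GdO (dT 0 A b) (S.image some) ↔ GRO (dT 0 A b) fun i : S => some (i : ℕ) := by
    refine GdO_iff (dT 0 A b) (r := fun i : S => some (i : ℕ)) ?_ ?_
    · intro i j h
      exact Subtype.ext (Option.some_injective _ h)
    · ext x
      simp only [mem_image, mem_univ, true_and]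
      constructor
      · rintro ⟨i, rfl⟩
        exact ⟨i, i.2, rfl⟩
      · rintro ⟨a, ha, rfl⟩
        exact ⟨⟨a, ha⟩, rfl⟩
  rw [h1]
  exact Iff.rfl

variable (A b) in
/-- the system of the numbers `g m`, `m ≡ a` -/
noncomputable def sysT (g a : ℕ) : Sy :=
  if g % 2 = 1 then ⟨dT 0 A b, g.primeFactors.image some⟩
  else ⟨dT (if (g / 2 * a) % 4 = 1 then 0 else 1) A b, insertNone (g / 2).primeFactors⟩

theorem SW_some {d : Dt} (T S : Finset ℕ) : SW ⟨d, T.image some⟩ S = (T ∪ S).image some := by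
  unfold SW
  rw [image_union, union_comm]

theorem SW_ins {d : Dt} (T S : Finset ℕ) : SW ⟨d, insertNone T⟩ S = insertNone (T ∪ S) := by
  unfold SW
  ext x
  rcases x with _ | x
  · simp
  · simp [or_comm]

/-- **The good numbers `g m`.** -/
theorem cr_sys {C : ℕ → Prop} (h : Pool.Agent.L0h74.E3.CrD C A b) {u a : ℕ} (hc : Cp u a)
    (h12 : 12 ∣ u) {g m : ℕ} (hg : Squarefree g) (h3 : ¬ 3 ∣ g)
    (hu : ∀ p, p.Prime → p ∣ g → p ∣ u) (hpar : g % 2 = 0 ∨ (g * a) % 4 = 1)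
    (hm : Squarefree m) (hma : m % u = a) :
    C (g * m) ↔ GdS (sysT A b g a) m.primeFactors := by
  have h4 : 4 ∣ u := (by norm_num : 4 ∣ 12).trans h12
  have h3u : 3 ∣ u := (by norm_num : 3 ∣ 12).trans h12
  have hcop : Nat.Coprime m u := by
    rw [Nat.coprime_iff_gcd_eq_one, Nat.gcd_comm, Nat.gcd_rec, hma]
    exact hc.cop
  have hm0 : m ≠ 0 := hm.ne_zero
  have m4 : m % 4 = a % 4 := by rw [← hma, Nat.mod_mod_of_dvd _ h4]
  have mod4 : ∀ n : ℕ, (n * m) % 4 = (n * a) % 4 := by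
    intro n
    rw [Nat.mul_mod, m4, ← Nat.mul_mod]
  have mo : m % 2 = 1 := hc.modd hma
  have m3' : ¬ 3 ∣ m := by
    intro h'
    have := Nat.dvd_gcd h' h3u
    rw [hcop] at this
    omega
  have hpf : ∀ n : ℕ, n ≠ 0 → (∀ p, p.Prime → p ∣ n → p ∣ u) →
      (n * m).primeFactors = n.primeFactors ∪ m.primeFactors := fun n hn hn2 =>
    (pf_mul hn hn2 hm0 hcop).1
  have hsq : ∀ n : ℕ, Squarefree n → (∀ p, p.Prime → p ∣ n → p ∣ u) → Squarefree (n * m) := by
    intro n hn hn2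
    have hcn : Nat.Coprime n m := by
      rw [Nat.coprime_iff_gcd_eq_one]
      by_contra hne
      obtain ⟨p, hp, hd⟩ := Nat.exists_prime_and_dvd hne
      have h1 := Nat.dvd_gcd (hd.trans (Nat.gcd_dvd_right _ _))
        (hn2 p hp (hd.trans (Nat.gcd_dvd_left _ _)))
      rw [hcop] at h1
      exact hp.one_lt.ne' (Nat.dvd_one.1 h1)
    rw [Nat.squarefree_mul hcn]
    exact ⟨hn, hm⟩
  have h3m : ∀ n : ℕ, ¬ 3 ∣ n → ¬ 3 ∣ n * m := by
    intro n hn h1
    rcases (Nat.Prime.dvd_mul (by norm_num)).1 h1 with h2 | h2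
    · exact hn h2
    · exact m3' h2
  unfold sysT
  by_cases ho : g % 2 = 1
  · rw [if_pos ho]
    have h1 : (g * a) % 4 = 1 := by
      rcases hpar with h' | h'
      · omega
      · exact h'
    rw [h.odd (g * m) (hsq g hg hu) (by rw [mod4, h1]) (h3m g h3)]
    unfold GdS
    rw [SW_some, hpf g hg.ne_zero hu]
    exact (GdO_some _).symm
  · rw [if_neg ho]
    obtain ⟨g', hg'⟩ : ∃ g', g = 2 * g' := ⟨g / 2, by omega⟩
    have e0 : g / 2 = g' := by omega
    have hsq' : Squarefree g' ∧ g' % 2 = 1 := by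
      have := hg
      rw [hg', Pool.Agent.L0h74.EV.Uni.sf_two] at this
      exact ⟨this.2, this.1⟩
    have hu' : ∀ p, p.Prime → p ∣ g' → p ∣ u := fun p hp hd =>
      hu p hp (by rw [hg']; exact Dvd.dvd.mul_left hd 2)
    have h3' : ¬ 3 ∣ g' := fun h' => h3 (by rw [hg']; exact Dvd.dvd.mul_left h' 2)
    have o1 : (g' * m) % 2 = 1 := by rw [Nat.mul_mod, hsq'.2, mo]
    have e2 : g * m = 2 * (g' * m) := by rw [hg', mul_assoc]
    rw [e0, e2, h.even (g' * m) (hsq g' hsq'.1 hu') o1 (h3m g' h3')]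
    unfold GdS
    rw [SW_ins, ← hpf g' hsq'.1.ne_zero hu', GdO_T (by split_ifs <;> omega), mod4 g']
    exact Iff.rfl

end Pool.Agent.L0h23.XF
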