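import Pool.Agent.L0h86.XF.Stm

/-!
# Project XF: the hypotheses for the systems of one field, and the combination of the two fields
-/

set_option autoImplicit false
set_option linter.unusedVariables false

open scoped Classical

namespace Pool.Agent.L0h23.XF

open Finset
open Pool.Agent.L0h86.XF
open Pool.Agent.L0h74.EV (Cl)
open Pool.Agent.L0h74.AP (Cp)

/-- the hypotheses on the systems of the field `f` -/
structure HyF (f : Bool) {t n : ℕ} (s : Fin t → Sy) (u a : ℕ) (cl : Fin n → ℕ)
    (x : Fin t → Fin n → ZMod 2) : Prop where
  fld : ∀ l, (s l).d.f = f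
  t4 : ∀ l, (s l).d.t < 4
  recA : ∀ l, RecA (s l).d.f (s l).d.A
  W : ∀ l, ∀ v ∈ (s l).W, PrO (s l).d.f v
  Wu : ∀ l p, some p ∈ (s l).W → p ∣ u
  par : ∀ l S, Cl u a S → (kW (s l) + kd (s l).d.f S) % 2 = 0
  cls : ∀ r p, p.Prime → p % (7 * u) = cl r →
    ty f p = 2 ∧ ∀ l l', dg (s l) p + x l r = dg (s l') p + x l' r
  clc : ∀ r, cl r < 7 * u ∧ (cl r).Coprime (7 * u)
  sep : ∀ l l', l ≠ l' → ∃ r, x l r ≠ x l' r

/-- the values for both fields -/
def xx {t₀ t₁ n₀ n₁ : ℕ} (x₀ : Fin t₀ → Fin n₀ → ZMod 2) (x₁ : Fin t₁ → Fin n₁ → ZMod 2) :
    Fin (t₀ + t₁) → Fin (n₀ + n₁) → ZMod 2 :=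
  Fin.append (fun l => Fin.append (x₀ l) fun _ => 0) (fun l => Fin.append (fun _ => 0) (x₁ l))

/-- **The combination of the two fields.** -/
theorem hy_append {t₀ t₁ n₀ n₁ : ℕ} {s₀ : Fin t₀ → Sy} {s₁ : Fin t₁ → Sy} {u a cs : ℕ}
    {cl₀ : Fin n₀ → ℕ} {cl₁ : Fin n₁ → ℕ} {x₀ : Fin t₀ → Fin n₀ → ZMod 2}
    {x₁ : Fin t₁ → Fin n₁ → ZMod 2} (hc : Cp u a) (h84 : 84 ∣ u)
    (h₀ : HyF false s₀ u a cl₀ x₀) (h₁ : HyF true s₁ u a cl₁ x₁)
    (hcs : ∀ p, p.Prime → p % (7 * u) = cs → ty false p = 2 ∧ ty true p = 0)
    (hcc : cs < 7 * u ∧ cs.Coprime (7 * u)) :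
    Hy (Fin.append s₀ s₁) u a (Fin.append cl₀ cl₁)
      (Fin.append (fun _ => false) fun _ => true) (xx x₀ x₁) cs := by
  refine ⟨hc, h84, ?_, ?_, ?_, ?_, ?_, ?_, ?_, ?_, hcs, hcc⟩
  · intro l
    induction l using Fin.addCases with
    | left l => simpa using h₀.t4 l
    | right l => simpa using h₁.t4 l
  · intro l
    induction l using Fin.addCases with
    | left l => simpa using h₀.recA l
    | right l => simpa using h₁.recA l
  · intro l
    induction l using Fin.addCases with
    | left l => simpa using h₀.W l
    | right l => simpa using h₁.W l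
  · intro l
    induction l using Fin.addCases with
    | left l => simpa using h₀.Wu l
    | right l => simpa using h₁.Wu l
  · intro l
    induction l using Fin.addCases with
    | left l => simpa using h₀.par l
    | right l => simpa using h₁.par l
  · intro r p hp hpr
    induction r using Fin.addCases with
    | left r =>
      rw [Fin.append_left] at hpr ⊢
      obtain ⟨h2, h3⟩ := h₀.cls r p hp hpr
      refine ⟨h2, fun l l' hl hl' => ?_⟩
      induction l using Fin.addCases with
      | left l =>
        induction l' using Fin.addCases with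
        | left l' =>
          unfold xx
          rw [Fin.append_left, Fin.append_left, Fin.append_left, Fin.append_left,
            Fin.append_left, Fin.append_left]
          exact h3 l l'
        | right l' =>
          rw [Fin.append_right, h₁.fld l'] at hl'
          exact absurd hl' (by decide)
      | right l =>
        rw [Fin.append_right, h₁.fld l] at hl
        exact absurd hl (by decide)
    | right r =>
      rw [Fin.append_right] at hpr ⊢
      obtain ⟨h2, h3⟩ := h₁.cls r p hp hpr
      refine ⟨h2, fun l l' hl hl' => ?_⟩
      induction l using Fin.addCases with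
      | left l =>
        rw [Fin.append_left, h₀.fld l] at hl
        exact absurd hl (by decide)
      | right l =>
        induction l' using Fin.addCases with
        | left l' =>
          rw [Fin.append_left, h₀.fld l'] at hl'
          exact absurd hl' (by decide)
        | right l' =>
          unfold xx
          rw [Fin.append_right, Fin.append_right, Fin.append_right, Fin.append_right,
            Fin.append_right, Fin.append_right]
          exact h3 l l'
  · intro r
    induction r using Fin.addCases with
    | left r => simpa using h₀.clc r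
    | right r => simpa using h₁.clc r
  · intro l l' hne hf
    induction l using Fin.addCases with
    | left l =>
      induction l' using Fin.addCases with
      | left l' =>
        have hne' : l ≠ l' := fun h => hne (by rw [h])
        obtain ⟨r, hr⟩ := h₀.sep l l' hne'
        refine ⟨Fin.castAdd _ r, ?_, ?_⟩
        · rw [Fin.append_left, Fin.append_left, h₀.fld l]
        · unfold xx
          rw [Fin.append_left, Fin.append_left, Fin.append_left, Fin.append_left]
          exact hr
      | right l' =>
        rw [Fin.append_left, Fin.append_right, h₀.fld l, h₁.fld l'] at hf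
        exact absurd hf (by decide)
    | right l =>
      induction l' using Fin.addCases with
      | left l' =>
        rw [Fin.append_left, Fin.append_right, h₀.fld l', h₁.fld l] at hf
        exact absurd hf (by decide)
      | right l' =>
        have hne' : l ≠ l' := fun h => hne (by rw [h])
        obtain ⟨r, hr⟩ := h₁.sep l l' hne'
        refine ⟨Fin.natAdd _ r, ?_, ?_⟩
        · rw [Fin.append_right, Fin.append_right, h₁.fld l]
        · unfold xx
          rw [Fin.append_right, Fin.append_right, Fin.append_right, Fin.append_right]
          exact hr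

end Pool.Agent.L0h23.XF
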